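import Mathlib
import Pool.Agent.MP_b109da_an.Upper
import Pool.Agent.MP_b109da_an.Lower

/-! A planar expanding map with specification for which the supremum of the Hausdorff dimensions of
ergodic invariant probability measures is strictly smaller than the Hausdorff dimension of the
repeller. -/

namespace Pool.Agent.Results.MP_b109da_an.PlanarGap

open MeasureTheory NNReal ENNReal Pool.Agent.PlanarGap

/-- The Euclidean plane. -/
abbrev Plane := EuclideanSpace ℝ (Fin 2)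

/-- `T : X → X` is an expanding map: it is the restriction of a `C^1` map `f` defined on an open
neighbourhood `U` of `X` with `f⁻¹(X) = X`, and some iterate `f^n`, `n ≥ 1`, is infinitesimally
expanding on `X`. -/
def IsExpandingMap (X : Set Plane) (T : X → X) : Prop :=
  ∃ (U : Set Plane) (f : Plane → Plane), IsOpen U ∧ X ⊆ U ∧ ContDiffOn ℝ 1 f U ∧
    (∀ x : X, f x = T x) ∧ {z | z ∈ U ∧ f z ∈ X} = X ∧
    ∃ n : ℕ, 1 ≤ n ∧ ∀ x ∈ X, ∀ v : Plane, v ≠ 0 → ‖v‖ < ‖fderiv ℝ (f^[n]) x v‖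

/-- The specification property of `T : X → X`: for every `ε > 0` there is `L` such that any finite
family of `k ≥ 1` orbit segments `(x_j, [a_j, c_j])`, `j < k`, with gaps `a_{j+1} - c_j ≥ L`
(and `c_j < a_{j+1}`) is `ε`-shadowed by the orbit of one point. -/
def HasSpecification {X : Set Plane} (T : X → X) : Prop :=
  ∀ ε : ℝ, 0 < ε → ∃ L : ℕ, ∀ k : ℕ, 1 ≤ k → ∀ (x : ℕ → X) (a c : ℕ → ℕ),
    (∀ j, j < k → a j ≤ c j) →
    (∀ j, j + 1 < k → c j < a (j + 1) ∧ L ≤ a (j + 1) - c j) →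
    ∃ y : X, ∀ j, j < k → ∀ i, a j ≤ i → i ≤ c j → dist (T^[i] y) (T^[i] (x j)) ≤ ε

/-- The Hausdorff dimension of a Borel measure `μ` on `X`: the infimum of the Hausdorff dimensions
of Borel sets `A ⊆ X` with `μ(A) = 1`. -/
noncomputable def dimMeasure {X : Set Plane} (μ : Measure X) : ℝ≥0∞ :=
  ⨅ (A : Set X) (_ : MeasurableSet A) (_ : μ A = 1), dimH ((fun x : X => (x : Plane)) '' A)

/-- The negative answer to Q1. -/
theorem result :
    ∃ (X : Set Plane) (T : X → X), X.Nonempty ∧ IsCompact X ∧ IsExpandingMap X T ∧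
      HasSpecification T ∧
      (⨆ (μ : Measure X) (_ : IsProbabilityMeasure μ) (_ : Ergodic T μ), dimMeasure μ) <
        dimH X := by
  obtain ⟨M, hM⟩ : ∃ M : ℕ, M = 67108864 := ⟨_, rfl⟩
  obtain ⟨N, hN⟩ : ∃ N : ℕ, N = 2 ^ (16 * M) := ⟨_, rfl⟩
  obtain ⟨b, hbN⟩ : ∃ b : ℕ, b = 8 * N := ⟨_, rfl⟩
  have hM8 : 8 ≤ M := by omega
  have hM2 : M % 2 = 0 := by omega
  have hNlow : 8 ^ 20 ≤ N := by
    have h1 : (8 : ℕ) ^ 20 = 2 ^ 60 := by norm_num
    rw [h1, hN]
    exact Nat.pow_le_pow_right (by norm_num) (by omega)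
  have hN1 : 1 ≤ N := le_trans (Nat.one_le_pow _ _ (by norm_num)) hNlow
  have hb : 4 * (N + 1) ≤ b := by omega
  have hbig : 2 * 4 ^ (16 * M) ≤ b ^ 2 := by
    have h1 : (4 : ℕ) ^ (16 * M) = N ^ 2 := by
      have h2 : (4 : ℕ) = 2 ^ 2 := by norm_num
      rw [hN, ← pow_mul, mul_comm (16 * M) 2, pow_mul 2 2 (16 * M), ← h2]
    rw [h1, hbN, mul_pow]
    have : 0 ≤ N ^ 2 := Nat.zero_le _
    omega
  refine ⟨XX N b M, TT hb hM8 hM2, XX_nonempty hN1, XX_compact hb hM8 hM2, ?_, ?_, ?_⟩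
  · refine ⟨UU N, ff N b M, UU_open N, XX_subset_UU hb hM8 hM2, ff_contDiffOn hb, fun x => rfl,
      preimage_XX hb hM8 hM2, 1, le_rfl, fun x hx v hv => ?_⟩
    rw [Function.iterate_one]
    exact ff_expand hb hM8 hM2 hx hv
  · intro ε hε
    obtain ⟨L, hL⟩ := spec hb hM8 hM2 hε
    refine ⟨L, fun k _ x a c hac hca => ?_⟩
    choose w hw using fun j => (x j).2
    obtain ⟨ω, hω⟩ := hL k w a c hac (fun j hj => by
      have := hca j hj
      omega)
    refine ⟨⟨cod b M ω, ω, rfl⟩, fun j hj i h1 h2 => ?_⟩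
    rw [Subtype.dist_eq, TT_iter hb hM8 hM2, TT_iter hb hM8 hM2, ← hw j]
    exact hω j hj i h1 h2
  · refine lt_of_le_of_lt (b := ((39 / (16 * (M : ℝ≥0)) : ℝ≥0) : ℝ≥0∞)) ?_
      (lt_of_lt_of_le ?_ (lower hb hM8 hM2 hM hbN hNlow))
    · refine iSup_le fun μ => iSup_le fun hμ => iSup_le fun hT => ?_
      obtain ⟨A, hA, hA1, hAd⟩ := upper hb hM8 hM2 hbig μ hT.toMeasurePreserving
      unfold dimMeasure
      refine (iInf_le _ A).trans ((iInf_le _ hA).trans ((iInf_le _ hA1).trans ?_))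
      rw [isometry_subtype_coe.dimH_image]
      exact hAd
    · rw [ENNReal.coe_lt_coe]
      have hM0 : (0 : ℝ≥0) < M := by
        have : 0 < M := by omega
        exact_mod_cast this
      rw [div_lt_div_iff₀ (by positivity) (by positivity)]
      calc (39 : ℝ≥0) * (2 * M) = 78 * M := by ring
        _ < 80 * M := by
          apply mul_lt_mul_of_pos_right _ hM0
          norm_num
        _ = 5 * (16 * M) := by ring

end Pool.Agent.Results.MP_b109da_an.PlanarGap
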